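import Pool.Agent.MP_f91e0f_al.H43.Defs

/-! Linear escape implies conical. -/

namespace Pool.Agent.MP_f91e0f_al.H43

open Filter

namespace Gens

variable {G : Type} [Group G] (W : Gens G)

lemma len_one : W.len 1 = 0 := by
  have := W.len_le (l := []) (by simp)
  simpa using this

lemma gp_comm (x y : G) : W.gp x y = W.gp y x := by
  unfold gp
  have : W.len (y⁻¹ * x) = W.len (x⁻¹ * y) := by rw [← W.len_inv]; simp
  rw [this]; ring

lemma gp_self (x : G) : W.gp x x = W.len x := by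
  unfold gp
  rw [inv_mul_cancel, W.len_one]; simp

lemma le_gp (x y : G) : (W.len x : ℝ) - W.len (x⁻¹ * y) ≤ W.gp x y := by
  have h := W.len_mul y (x⁻¹ * y)⁻¹
  rw [W.len_inv] at h
  have e : y * (x⁻¹ * y)⁻¹ = x := by group
  rw [e] at h
  have h' : (W.len x : ℝ) ≤ W.len y + W.len (x⁻¹ * y) := by exact_mod_cast h
  unfold gp
  linarith

lemma gp_inv (x y : G) : W.gp x⁻¹ (x⁻¹ * y) = W.len x - W.gp x y := by
  unfold gp
  have e : x⁻¹⁻¹ * (x⁻¹ * y) = y := by group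
  rw [e, W.len_inv]; ring

lemma exists_mid (g : G) {j : ℕ} (hj : j ≤ W.len g) : ∃ p, W.len p ≤ j ∧ W.gp p g = j := by
  obtain ⟨l, h1, h2, rfl⟩ := W.exists_geod g
  have h3 := W.len_le (l := l.take j) fun s hs => h2 s (List.mem_of_mem_take hs)
  have h4 := W.len_le (l := l.drop j) fun s hs => h2 s (List.mem_of_mem_drop hs)
  have h5 := W.len_mul (l.take j).prod (l.drop j).prod
  have h6 : (l.take j).prod * (l.drop j).prod = l.prod := List.prod_take_mul_prod_drop l j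
  rw [h6] at h5
  rw [List.length_take] at h3
  rw [List.length_drop] at h4
  have h7 : (l.take j).prod⁻¹ * l.prod = (l.drop j).prod := by rw [← h6]; group
  refine ⟨(l.take j).prod, by omega, ?_⟩
  unfold gp
  rw [h7]
  have e1 : W.len (l.take j).prod = j := by omega
  have e2 : W.len l.prod = j + W.len (l.drop j).prod := by omega
  rw [e1, e2]; push_cast; ring

open Classical Pointwise in
/-- A finite set containing the ball of radius `m`. -/
noncomputable def ball (m : ℕ) : Finset G := (insert 1 (W.S ∪ W.S⁻¹)) ^ m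

open Classical Pointwise in
lemma mem_ball {g : G} {m : ℕ} (h : W.len g ≤ m) : g ∈ W.ball m := by
  obtain ⟨l, h1, h2, rfl⟩ := W.exists_geod g
  have key : ∀ (l : List G), (∀ s ∈ l, s ∈ W.S ∨ s⁻¹ ∈ W.S) → ∀ m, l.length ≤ m →
      l.prod ∈ (insert 1 (W.S ∪ W.S⁻¹)) ^ m := by
    intro l
    induction l with
    | nil => intro _ m _; exact Finset.one_mem_pow (Finset.mem_insert_self _ _)
    | cons s l ih =>
      intro hl m hm
      obtain ⟨m, rfl⟩ : ∃ k, m = k + 1 := ⟨m - 1, by simp at hm; omega⟩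
      rw [pow_succ', List.prod_cons]
      refine Finset.mul_mem_mul ?_ (ih (fun t ht => hl t (List.mem_cons_of_mem _ ht)) m
        (by simpa using hm))
      rcases hl s List.mem_cons_self with h | h
      · simp [h]
      · simp [Finset.mem_inv', h]
  exact key l h2 m (by omega)

open Classical Pointwise in
lemma card_ball : ∃ K : ℕ, ∀ m, (W.ball m).card ≤ K ^ m :=
  ⟨_, fun _ => Finset.card_pow_le⟩

lemma rel_iff {x y : ℕ → G} :
    W.Rel x y ↔ ∀ r : ℝ, ∃ N, ∀ s ≥ N, ∀ t ≥ N, r ≤ W.gp (x s) (y t) := by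
  unfold Rel
  rw [tendsto_atTop_atTop]
  constructor
  · intro h r
    obtain ⟨⟨a, b⟩, hp⟩ := h r
    exact ⟨max a b, fun s hs t ht => hp (s, t) ⟨le_of_max_le_left hs, le_of_max_le_right ht⟩⟩
  · intro h r
    obtain ⟨N, hN⟩ := h r
    exact ⟨(N, N), fun p hp => hN _ hp.1 _ hp.2⟩

variable {W} {δ : ℝ}

lemma four (hδ : ∀ x y z : G, min (W.gp x y) (W.gp y z) - δ ≤ W.gp x z) {x y z : G} {r : ℝ}
    (h1 : r + δ ≤ W.gp x y) (h2 : r + δ ≤ W.gp y z) : r ≤ W.gp x z := by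
  have := hδ x y z
  have := le_min h1 h2
  linarith

lemma delta_nonneg (hδ : ∀ x y z : G, min (W.gp x y) (W.gp y z) - δ ≤ W.gp x z) : 0 ≤ δ := by
  have := hδ 1 1 1
  simp only [min_self] at this
  linarith

lemma mk_eq_iff (hδ : ∀ x y z : G, min (W.gp x y) (W.gp y z) - δ ≤ W.gp x z)
    {x y : {x : ℕ → G // W.Rel x x}} :
    (Quot.mk _ x : W.Bd) = Quot.mk _ y ↔ W.Rel x.1 y.1 := by
  have he : Equivalence fun x y : {x : ℕ → G // W.Rel x x} => W.Rel x.1 y.1 := by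
    refine ⟨fun x => x.2, fun {x y} h => ?_, fun {x y z} h1 h2 => ?_⟩
    · rw [rel_iff] at h ⊢
      intro r
      obtain ⟨N, hN⟩ := h r
      exact ⟨N, fun s hs t ht => by rw [W.gp_comm]; exact hN t ht s hs⟩
    · rw [rel_iff] at h1 h2 ⊢
      intro r
      obtain ⟨N, hN⟩ := h1 (r + δ)
      obtain ⟨M, hM⟩ := h2 (r + δ)
      exact ⟨max N M, fun s hs t ht => four hδ
        (hN s (le_of_max_le_left hs) (max N M) (le_max_left _ _))
        (hM (max N M) (le_max_right _ _) t (le_of_max_le_right ht))⟩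
  exact Quot.eq.trans he.eqvGen_iff

lemma bdd_of_not_rel (hδ : ∀ x y z : G, min (W.gp x y) (W.gp y z) - δ ≤ W.gp x z)
    {x y : ℕ → G} (hx : W.Rel x x) (hy : W.Rel y y) (h : ¬ W.Rel x y) :
    ∃ (C : ℝ) (N : ℕ), ∀ s ≥ N, ∀ t ≥ N, W.gp (x s) (y t) ≤ C := by
  rw [rel_iff] at h hx hy
  push Not at h
  obtain ⟨r, hr⟩ := h
  have h0 := delta_nonneg hδ
  obtain ⟨N, hN⟩ := hx (r + δ + δ)
  obtain ⟨M, hM⟩ := hy (r + δ + δ)
  obtain ⟨i, hi, j, hj, hij⟩ := hr (max N M)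
  refine ⟨r + δ + δ, max N M, fun s hs t ht => ?_⟩
  by_contra hc
  push Not at hc
  have h1 : r + δ ≤ W.gp (x s) (y j) :=
    four hδ hc.le (hM t (le_of_max_le_right ht) j (le_of_max_le_right hj))
  have h2 : r ≤ W.gp (x i) (y j) :=
    four hδ (by have := hN i (le_of_max_le_left hi) s (le_of_max_le_left hs); linarith) h1
  linarith

lemma exists_subseq (hδ : ∀ x y z : G, min (W.gp x y) (W.gp y z) - δ ≤ W.gp x z)
    (g : ℕ → G) (hg : ∀ j, ∀ᶠ k in atTop, j ≤ W.len (g k)) :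
    ∃ φ : ℕ → ℕ, (∀ j, j ≤ φ j) ∧ W.Rel (fun j => g (φ j)) (fun j => g (φ j)) := by
  let U : Ultrafilter ℕ := Ultrafilter.of atTop
  have hU : (U : Filter ℕ) ≤ atTop := Ultrafilter.of_le _
  have h1 : ∀ j : ℕ, ∃ q : G, {k | W.gp q (g k) = j} ∈ U := by
    intro j
    have h2 : (⋃ q ∈ (W.ball j : Set G), {k | W.gp q (g k) = j}) ∈ U := by
      refine mem_of_superset (hU (hg j)) fun k hk => ?_
      obtain ⟨p, hp1, hp2⟩ := W.exists_mid (g k) hk
      exact Set.mem_biUnion (Finset.mem_coe.2 (W.mem_ball hp1)) hp2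
    obtain ⟨q, -, hq⟩ := (Ultrafilter.finite_biUnion_mem_iff (Finset.finite_toSet _)).1 h2
    exact ⟨q, hq⟩
  choose q hq using h1
  have h3 : ∀ j : ℕ, ∃ k, j ≤ k ∧ ∀ i ≤ j, W.gp (q i) (g k) = i := by
    intro j
    have h4 : ∀ᶠ k in (U : Filter ℕ), ∀ i ∈ Set.Iic j, W.gp (q i) (g k) = i :=
      (eventually_all_finite (Set.finite_Iic j)).2 fun i _ => hq i
    exact (((eventually_ge_atTop j).filter_mono hU).and h4).exists
  choose φ hφ1 hφ2 using h3
  refine ⟨φ, hφ1, W.rel_iff.2 fun r => ?_⟩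
  obtain ⟨N, hN⟩ := exists_nat_ge (r + δ)
  refine ⟨N, fun s hs t ht => four hδ (y := q N) ?_ ?_⟩
  · rw [W.gp_comm, hφ2 s N hs]; exact hN
  · rw [hφ2 t N ht]; exact hN

lemma near_of {r : ℝ} {x y : ℕ → G} (hx : W.Rel x x) (hy : W.Rel y y) (N : ℕ)
    (h : ∀ s ≥ N, ∀ t ≥ N, r ≤ W.gp (x s) (y t)) :
    W.Near r (Quot.mk _ ⟨x, hx⟩) (Quot.mk _ ⟨y, hy⟩) :=
  ⟨x, y, ⟨hx, rfl⟩, ⟨hy, rfl⟩, eventually_atTop.2 ⟨(N, N), fun _ hp => h _ hp.1 _ hp.2⟩⟩

lemma conical_of_radial (hδ : ∀ x y z : G, min (W.gp x y) (W.gp y z) - δ ≤ W.gp x z)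
    {F : Type} [Group F] (i : F →* G) (f : ℕ → F) {z : W.Bd} (hz : W.Conv (fun n => i (f n)) z)
    (R : ℝ) (hR : ∀ N, ∃ n ≥ N, ∀ m ≥ n, (W.len (i (f n)) : ℝ) - R ≤ W.gp (i (f n)) (i (f m))) :
    W.Conical i z := by
  obtain ⟨hγ, rfl⟩ := hz
  choose n hn1 hn2 using hR
  set γ : ℕ → G := fun n => i (f n) with hγdef
  have hlen : ∀ r : ℝ, ∃ N, ∀ k ≥ N, r ≤ W.len (γ (n k)) := by
    intro r
    obtain ⟨N, hN⟩ := W.rel_iff.1 hγ r
    refine ⟨N, fun k hk => ?_⟩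
    rw [← W.gp_self]
    exact hN _ (hk.trans (hn1 k)) _ (hk.trans (hn1 k))
  have hm : ∀ k : ℕ, ∃ m ≥ n k, ∀ t ≥ m,
      (k : ℝ) ≤ W.gp ((γ (n k))⁻¹ * γ m) ((γ (n k))⁻¹ * γ t) := by
    intro k
    obtain ⟨N, hN⟩ := W.rel_iff.1 (hγ.mul (γ (n k))⁻¹) k
    exact ⟨max N (n k), le_max_right _ _, fun t ht =>
      hN _ (le_max_left _ _) _ (le_of_max_le_left ht)⟩
  choose m hm1 hm2 using hm
  obtain ⟨φ, hφ1, hφ2⟩ := exists_subseq hδ (fun k => (γ (n k))⁻¹) (by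
    intro j
    obtain ⟨N, hN⟩ := hlen j
    refine eventually_atTop.2 ⟨N, fun k hk => ?_⟩
    rw [W.len_inv]
    exact_mod_cast hN k hk)
  obtain ⟨ψ, hψ1, hψ2⟩ := exists_subseq hδ (fun k => (γ (n (φ k)))⁻¹ * γ (m (φ k))) (by
    intro j
    refine eventually_atTop.2 ⟨j, fun k hk => ?_⟩
    have := hm2 (φ k) _ le_rfl
    rw [W.gp_self] at this
    have h2 : φ k ≤ W.len ((γ (n (φ k)))⁻¹ * γ (m (φ k))) := by exact_mod_cast this
    exact (hk.trans (hφ1 k)).trans h2)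
  have hθ : ∀ j, j ≤ φ (ψ j) := fun j => (hψ1 j).trans (hφ1 _)
  have hb : W.Rel (fun j => (γ (n (φ (ψ j))))⁻¹) (fun j => (γ (n (φ (ψ j))))⁻¹) := by
    rw [rel_iff] at hφ2 ⊢
    intro r
    obtain ⟨N, hN⟩ := hφ2 r
    exact ⟨N, fun s hs t ht => hN _ (hs.trans (hψ1 s)) _ (ht.trans (hψ1 t))⟩
  refine ⟨fun j => (f (n (φ (ψ j))))⁻¹, Quot.mk _ ⟨_, hψ2⟩, Quot.mk _ ⟨_, hb⟩, ?_, ?_, ?_⟩
  · intro h
    obtain ⟨N, hN⟩ := W.rel_iff.1 ((mk_eq_iff hδ).1 h) (R + 1)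
    have h1 := hN N le_rfl N le_rfl
    have h2 := hn2 (φ (ψ N)) _ (hm1 (φ (ψ N)))
    simp only at h1
    rw [W.gp_comm, W.gp_inv] at h1
    simp only [hγdef] at h1
    linarith
  · intro r
    obtain ⟨N, hN⟩ := W.rel_iff.1 hψ2 (r + δ)
    obtain ⟨N', hN'⟩ := exists_nat_ge (r + δ)
    refine eventually_atTop.2 ⟨max N N', fun j hj => ?_⟩
    refine near_of hψ2 (hγ.mul _) (max N (m (φ (ψ j)))) fun s hs t ht => ?_
    refine four hδ (hN s (le_of_max_le_left hs) j (le_of_max_le_left hj)) ?_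
    have h1 := hm2 (φ (ψ j)) t (le_of_max_le_right ht)
    have h2 : (N' : ℝ) ≤ φ (ψ j) := by exact_mod_cast (le_of_max_le_right hj).trans (hθ j)
    rw [map_inv]
    exact hN'.trans (h2.trans h1)
  · intro y hy r
    induction y using Quot.ind with
    | mk y =>
    have hne : ¬ W.Rel γ y.1 := fun h =>
      hy ((mk_eq_iff hδ (x := ⟨γ, hγ⟩) (y := y)).2 h).symm
    obtain ⟨C, N0, hC⟩ := bdd_of_not_rel hδ hγ y.2 hne
    obtain ⟨N, hN⟩ := W.rel_iff.1 hb (r + δ)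
    obtain ⟨N', hN'⟩ := hlen (r + δ + C)
    refine eventually_atTop.2 ⟨max (max N N') N0, fun j hj => ?_⟩
    refine near_of hb (y.2.mul _) (max N N0) fun s hs t ht => ?_
    have hj1 : N ≤ j := le_of_max_le_left (le_of_max_le_left hj)
    have hj2 : N' ≤ j := le_of_max_le_right (le_of_max_le_left hj)
    have hj3 : N0 ≤ j := le_of_max_le_right hj
    refine four hδ (hN s (le_of_max_le_left hs) j hj1) ?_
    have h1 := hC (n (φ (ψ j))) (hj3.trans ((hθ j).trans (hn1 _))) t (le_of_max_le_right ht)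
    have h2 := hN' (φ (ψ j)) (hj2.trans (hθ j))
    rw [map_inv]
    have h3 := W.gp_inv (γ (n (φ (ψ j)))) (y.1 t)
    simp only [hγdef] at h1 h2 h3 ⊢
    linarith

lemma len_chain (γ : ℕ → G) (L : ℕ) (hL : ∀ n, W.len ((γ n)⁻¹ * γ (n + 1)) ≤ L) (p d : ℕ) :
    W.len ((γ p)⁻¹ * γ (p + d)) ≤ L * d := by
  induction d with
  | zero => simp [W.len_one]
  | succ d ih =>
    have h1 := W.len_mul ((γ p)⁻¹ * γ (p + d)) ((γ (p + d))⁻¹ * γ (p + d + 1))
    have e : (γ p)⁻¹ * γ (p + d) * ((γ (p + d))⁻¹ * γ (p + d + 1)) = (γ p)⁻¹ * γ (p + (d + 1)) := by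
      rw [← add_assoc]; group
    rw [e] at h1
    have := hL (p + d)
    rw [Nat.mul_succ]
    omega

lemma radial_of_linear (hδ : ∀ x y z : G, min (W.gp x y) (W.gp y z) - δ ≤ W.gp x z)
    (γ : ℕ → G) (L : ℕ) (hL : ∀ n, W.len ((γ n)⁻¹ * γ (n + 1)) ≤ L) (M N0 : ℕ) (hM : 0 < M)
    (hlin : ∀ n ≥ N0, n ≤ M * W.len (γ n)) :
    ∃ R : ℝ, ∀ N, ∃ n ≥ N, ∀ m ≥ n, (W.len (γ n) : ℝ) - R ≤ W.gp (γ n) (γ m) := by
  obtain ⟨D, hD⟩ := exists_nat_ge δ
  have h0 := delta_nonneg hδ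
  refine ⟨L * (M * (D + 1)) + δ, fun N => ?_⟩
  obtain ⟨n, hn, hmin⟩ : ∃ n ∈ Set.Ici (max N N0), ∀ p ∈ Set.Ici (max N N0),
      M * W.len (γ n) - n ≤ M * W.len (γ p) - p :=
    ⟨_, Function.argminOn_mem (fun p => M * W.len (γ p) - p) (Set.Ici (max N N0))
      Set.nonempty_Ici, fun p hp => Function.argminOn_le (fun p => M * W.len (γ p) - p) _ hp⟩
  have hn' : max N N0 ≤ n := hn
  have hMr : (0 : ℝ) < M := by exact_mod_cast hM
  have hp : ∀ p ≥ n, (W.len (γ n) : ℝ) + ((p : ℝ) - n) / M ≤ W.len (γ p) := by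
    intro p hp
    have h1 := hmin p (hn'.trans hp)
    have h2 := hlin n (le_of_max_le_right hn')
    have h3 := hlin p ((le_of_max_le_right hn').trans hp)
    have h4 : M * W.len (γ n) + p ≤ M * W.len (γ p) + n := by omega
    have h5 : (M : ℝ) * W.len (γ n) + p ≤ M * W.len (γ p) + n := by exact_mod_cast h4
    rw [← sub_nonneg]
    have : (W.len (γ p) : ℝ) - (W.len (γ n) + ((p : ℝ) - n) / M) =
        (M * W.len (γ p) + n - (M * W.len (γ n) + p)) / M := by field_simp; ring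
    rw [this]
    exact div_nonneg (by linarith) hMr.le
  have key : ∀ d p, n ≤ p → (W.len (γ n) : ℝ) + ((p : ℝ) - n) / M - (L * (M * (D + 1)) + δ) ≤
      W.gp (γ p) (γ (p + d)) := by
    have base : ∀ d p, n ≤ p → d ≤ M * (D + 1) →
        (W.len (γ n) : ℝ) + ((p : ℝ) - n) / M - L * (M * (D + 1)) ≤ W.gp (γ p) (γ (p + d)) := by
      intro d p hnp hd
      have h1 := W.le_gp (γ p) (γ (p + d))
      have h2 := (len_chain γ L hL p d).trans (Nat.mul_le_mul_left L hd)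
      have h3 : (W.len ((γ p)⁻¹ * γ (p + d)) : ℝ) ≤ L * (M * (D + 1)) := by exact_mod_cast h2
      have h4 := hp p hnp
      linarith
    intro d
    induction d using Nat.strong_induction_on with
    | _ d ih =>
      intro p hnp
      by_cases hd : d ≤ M * (D + 1)
      · have := base d p hnp hd
        linarith
      · have hB : 0 < M * (D + 1) := Nat.mul_pos hM (Nat.succ_pos D)
        have h1 := base (M * (D + 1)) p hnp le_rfl
        have h2 := ih (d - M * (D + 1)) (by omega) (p + M * (D + 1)) (by omega)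
        have e : p + M * (D + 1) + (d - M * (D + 1)) = p + d := by omega
        rw [e] at h2
        refine four hδ (y := γ (p + M * (D + 1))) (by linarith) ?_
        have e2 : (((p + M * (D + 1) : ℕ) : ℝ) - n) / M = ((p : ℝ) - n) / M + (D + 1) := by
          push_cast; field_simp; ring
        rw [e2] at h2
        linarith
  refine ⟨n, le_of_max_le_left hn', fun m hm => ?_⟩
  obtain ⟨d, rfl⟩ := Nat.exists_eq_add_of_le hm
  simpa using key d n le_rfl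

end Gens

end Pool.Agent.MP_f91e0f_al.H43
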