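import Mathlib

/-!
Definitions: word metrics, word-hyperbolic groups and their Gromov boundary, conical points,
metric trees with a free cocompact action, their visual metric, Cannon-Thurston maps.
-/

namespace Pool.Agent.MP_f91e0f_al.H43

open Filter

/-- A finite generating set of the group `G`. -/
structure Gens (G : Type) [Group G] where
  S : Finset G
  gen : Subgroup.closure (S : Set G) = ⊤

namespace Gens

variable {G : Type} [Group G] (W : Gens G)

/-- Word length `|g|` with respect to `S ∪ S⁻¹`. -/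
noncomputable def len (g : G) : ℕ :=
  sInf {n | ∃ l : List G, l.length = n ∧ (∀ s ∈ l, s ∈ W.S ∨ s⁻¹ ∈ W.S) ∧ l.prod = g}

/-- Gromov product `(x|y)` based at `1` for the word metric `d(x,y) = |x⁻¹ y|`. -/
noncomputable def gp (x y : G) : ℝ := ((W.len x : ℝ) + W.len y - W.len (x⁻¹ * y)) / 2

/-- The word metric is Gromov hyperbolic (four-point condition). -/
def Hyp : Prop := ∃ δ : ℝ, ∀ x y z : G, min (W.gp x y) (W.gp y z) - δ ≤ W.gp x z

/-- `(x_i | y_j) → ∞` as `i, j → ∞`. -/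
def Rel (x y : ℕ → G) : Prop :=
  Tendsto (fun p : ℕ × ℕ => W.gp (x p.1) (y p.2)) atTop atTop

/-- The Gromov boundary: sequences converging to infinity, modulo `Rel`. -/
def Bd : Type := Quot fun x y : {x : ℕ → G // W.Rel x x} => W.Rel x.1 y.1

lemma len_le {l : List G} (hl : ∀ s ∈ l, s ∈ W.S ∨ s⁻¹ ∈ W.S) : W.len l.prod ≤ l.length :=
  Nat.sInf_le ⟨l, rfl, hl, rfl⟩

lemma exists_geod (g : G) :
    ∃ l : List G, l.length = W.len g ∧ (∀ s ∈ l, s ∈ W.S ∨ s⁻¹ ∈ W.S) ∧ l.prod = g := by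
  have h : ∃ l : List G, (∀ s ∈ l, s ∈ W.S ∨ s⁻¹ ∈ W.S) ∧ l.prod = g := by
    have hg : g ∈ Subgroup.closure (W.S : Set G) := by rw [W.gen]; trivial
    induction hg using Subgroup.closure_induction_left with
    | one => exact ⟨[], by simp, rfl⟩
    | mul_left x hx y hy ih =>
      obtain ⟨l, hl, rfl⟩ := ih
      refine ⟨x :: l, ?_, by simp⟩
      intro z hz
      rcases List.mem_cons.1 hz with rfl | hz
      · exact Or.inl hx
      · exact hl z hz
    | inv_mul_cancel x hx y hy ih =>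
      obtain ⟨l, hl, rfl⟩ := ih
      refine ⟨x⁻¹ :: l, ?_, by simp⟩
      intro z hz
      rcases List.mem_cons.1 hz with rfl | hz
      · exact Or.inr (by simpa using hx)
      · exact hl z hz
  obtain ⟨l, hl, hp⟩ := h
  have hne : {n | ∃ l : List G, l.length = n ∧ (∀ s ∈ l, s ∈ W.S ∨ s⁻¹ ∈ W.S) ∧
      l.prod = g}.Nonempty := ⟨l.length, l, rfl, hl, hp⟩
  exact Nat.sInf_mem hne

lemma len_mul (x y : G) : W.len (x * y) ≤ W.len x + W.len y := by
  obtain ⟨l, h1, h2, rfl⟩ := W.exists_geod x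
  obtain ⟨m, h3, h4, rfl⟩ := W.exists_geod y
  have := W.len_le (l := l ++ m) (by
    intro s hs
    rcases List.mem_append.1 hs with h | h
    exacts [h2 s h, h4 s h])
  rw [List.prod_append, List.length_append] at this
  omega

lemma len_inv (x : G) : W.len x⁻¹ = W.len x := by
  have key : ∀ x : G, W.len x⁻¹ ≤ W.len x := by
    intro x
    obtain ⟨l, h1, h2, rfl⟩ := W.exists_geod x
    have := W.len_le (l := (l.map fun s => s⁻¹).reverse) (by
      intro s hs
      obtain ⟨t, ht, rfl⟩ := List.mem_map.1 (List.mem_reverse.1 hs)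
      simpa [or_comm] using h2 t ht)
    rw [← List.prod_inv_reverse] at this
    simpa [h1] using this
  exact le_antisymm (key x) (by simpa using key x⁻¹)

lemma gp_mul (g x y : G) : W.gp x y - W.len g ≤ W.gp (g * x) (g * y) := by
  have h1 := W.len_mul g⁻¹ (g * x)
  have h2 := W.len_mul g⁻¹ (g * y)
  rw [inv_mul_cancel_left, W.len_inv] at h1 h2
  have h3 : (g * x)⁻¹ * (g * y) = x⁻¹ * y := by group
  have h1' : (W.len x : ℝ) ≤ W.len g + W.len (g * x) := by exact_mod_cast h1
  have h2' : (W.len y : ℝ) ≤ W.len g + W.len (g * y) := by exact_mod_cast h2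
  unfold gp
  rw [h3]
  linarith

lemma Rel.mul {W : Gens G} {x y : ℕ → G} (h : W.Rel x y) (g : G) :
    W.Rel (fun n => g * x n) (fun n => g * y n) :=
  tendsto_atTop_mono (fun p => W.gp_mul g (x p.1) (y p.2))
    (tendsto_atTop_add_const_right _ (-(W.len g : ℝ)) h)

/-- The action of `G` on its boundary: `g [x_n] = [g x_n]`. -/
def act (g : G) : W.Bd → W.Bd :=
  Quot.map (fun x => ⟨fun n => g * x.1 n, x.2.mul g⟩) fun _ _ h => h.mul g

/-- The sequence `x_n` of group elements converges to the boundary point `z`. -/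
def Conv (x : ℕ → G) (z : W.Bd) : Prop := ∃ hx : W.Rel x x, Quot.mk _ ⟨x, hx⟩ = z

/-- `q` lies in the standard basic neighbourhood `V(p, r)` of `p` in the boundary. -/
def Near (r : ℝ) (p q : W.Bd) : Prop :=
  ∃ x y : ℕ → G, W.Conv x p ∧ W.Conv y q ∧
    ∀ᶠ ij : ℕ × ℕ in atTop, r ≤ W.gp (x ij.1) (y ij.2)

/-- Convergence `z_n → a` in the boundary. -/
def Lim (z : ℕ → W.Bd) (a : W.Bd) : Prop := ∀ r : ℝ, ∀ᶠ n in atTop, W.Near r a (z n)

/-- `z` is conical for the action of `F` on the boundary through `i`. -/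
def Conical {F : Type} [Group F] (i : F →* G) (z : W.Bd) : Prop :=
  ∃ (h : ℕ → F) (a b : W.Bd), a ≠ b ∧ W.Lim (fun n => W.act (i (h n)) z) a ∧
    ∀ y : W.Bd, y ≠ z → W.Lim (fun n => W.act (i (h n)) y) b

end Gens

/-- A metric simplicial tree with vertex set `V` and edge lengths `l`, on which `F` acts freely
and isometrically with finitely many orbits of edges; a base vertex `x0` and a number `a > 1`. -/
structure CvTree (F V : Type) [Group F] [MulAction F V] where
  T : SimpleGraph V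
  tree : T.IsTree
  adj_smul : ∀ (f : F) (u v : V), T.Adj u v → T.Adj (f • u) (f • v)
  free : ∀ (f : F) (v : V), f • v = v → f = 1
  cocompact : ∃ E : Finset (V × V), ∀ u v, T.Adj u v → ∃ f : F, (f • u, f • v) ∈ E
  l : V → V → ℝ
  l_pos : ∀ u v, T.Adj u v → 0 < l u v
  l_symm : ∀ u v, l u v = l v u
  l_smul : ∀ (f : F) (u v : V), l (f • u) (f • v) = l u v
  x0 : V
  a : ℝ
  one_lt : 1 < a

namespace CvTree

variable {F V : Type} [Group F] [MulAction F V] (T : CvTree F V)

/-- The boundary of the tree: geodesic rays from `x0`, as injective edge paths. -/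
def End : Type :=
  {ξ : ℕ → V // ξ 0 = T.x0 ∧ (∀ n, T.T.Adj (ξ n) (ξ (n + 1))) ∧ Function.Injective ξ}

/-- The length of the common initial segment of two distinct rays. -/
noncomputable def cp (ξ η : T.End) : ℝ :=
  ∑ k ∈ Finset.range (PiNat.firstDiff (E := fun _ => V) ξ.1 η.1 - 1), T.l (ξ.1 k) (ξ.1 (k + 1))

lemma sum_mono (ξ : T.End) {m n : ℕ} (h : m ≤ n) :
    ∑ k ∈ Finset.range m, T.l (ξ.1 k) (ξ.1 (k + 1)) ≤
      ∑ k ∈ Finset.range n, T.l (ξ.1 k) (ξ.1 (k + 1)) :=
  Finset.sum_le_sum_of_subset_of_nonneg (Finset.range_mono h)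
    fun k _ _ => (T.l_pos _ _ (ξ.2.2.1 k)).le

lemma sum_eq (ξ η : T.End) {m : ℕ} (h : m ≤ PiNat.firstDiff (E := fun _ => V) ξ.1 η.1 - 1) :
    ∑ k ∈ Finset.range m, T.l (ξ.1 k) (ξ.1 (k + 1)) =
      ∑ k ∈ Finset.range m, T.l (η.1 k) (η.1 (k + 1)) := by
  refine Finset.sum_congr rfl fun k hk => ?_
  have hk' := Finset.mem_range.1 hk
  rw [PiNat.apply_eq_of_lt_firstDiff (E := fun _ => V) (x := ξ.1) (y := η.1) (n := k) (by omega),
    PiNat.apply_eq_of_lt_firstDiff (E := fun _ => V) (x := ξ.1) (y := η.1) (n := k + 1)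
      (by omega)]

lemma cp_comm (ξ η : T.End) : T.cp ξ η = T.cp η ξ := by
  unfold cp
  rw [T.sum_eq ξ η le_rfl, PiNat.firstDiff_comm]

lemma min_cp_le (ξ η ζ : T.End) (h : ξ ≠ ζ) : min (T.cp ξ η) (T.cp η ζ) ≤ T.cp ξ ζ := by
  have h1 := PiNat.min_firstDiff_le (E := fun _ => V) ξ.1 η.1 ζ.1 fun e => h (Subtype.ext e)
  rcases le_total (PiNat.firstDiff (E := fun _ => V) ξ.1 η.1)
    (PiNat.firstDiff (E := fun _ => V) η.1 ζ.1) with h2 | h2
  · exact (min_le_left _ _).trans (T.sum_mono ξ (by omega))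
  · refine (min_le_right _ _).trans ?_
    unfold cp
    rw [← T.sum_eq ξ η (by omega)]
    exact T.sum_mono ξ (by omega)

open Classical in
/-- The visual metric `d_a(ξ, η) = a ^ (-(ξ|η))`. -/
noncomputable instance : MetricSpace T.End where
  dist ξ η := if ξ = η then 0 else T.a ^ (-T.cp ξ η)
  dist_self ξ := by simp
  dist_comm ξ η := by simp only [eq_comm (a := ξ), T.cp_comm ξ η]
  dist_triangle ξ η ζ := by
    have ha : 0 < T.a := zero_lt_one.trans T.one_lt
    have hp : ∀ t : ℝ, 0 < T.a ^ t := fun t => Real.rpow_pos_of_pos ha t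
    by_cases h : ξ = ζ
    · have hn : ∀ (P : Prop) (t : ℝ), 0 ≤ if P then 0 else T.a ^ t := fun P t => by
        split_ifs
        exacts [le_rfl, (hp t).le]
      simp only [h, if_true]
      exact add_nonneg (hn _ _) (hn _ _)
    by_cases h1 : ξ = η
    · simp [h1]
    by_cases h2 : η = ζ
    · simp [h2]
    simp only [h, h1, h2, if_false]
    rcases min_le_iff.1 (T.min_cp_le ξ η ζ h) with h3 | h3
    · exact (Real.rpow_le_rpow_of_exponent_le T.one_lt.le (neg_le_neg h3)).trans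
        (le_add_of_nonneg_right (hp _).le)
    · exact (Real.rpow_le_rpow_of_exponent_le T.one_lt.le (neg_le_neg h3)).trans
        (le_add_of_nonneg_left (hp _).le)
  eq_of_dist_eq_zero {ξ η} h := by
    by_contra hne
    simp only [hne, if_false] at h
    exact (Real.rpow_pos_of_pos (zero_lt_one.trans T.one_lt) _).ne' h

/-- `f_n → ξ` in `F ∪ ∂F`: the Gromov products `(f_n x0 | ξ_m)` at `x0` tend to infinity. -/
def TendsTo (f : ℕ → F) (ξ : T.End) : Prop :=
  Tendsto (fun p : ℕ × ℕ => ((T.T.dist T.x0 (f p.1 • T.x0) : ℝ) + T.T.dist T.x0 (ξ.1 p.2) -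
    T.T.dist (f p.1 • T.x0) (ξ.1 p.2)) / 2) atTop atTop

/-- `c` extends `i` continuously to the boundary: `f_n → ξ` implies `i f_n → c ξ`. -/
def IsCT {G : Type} [Group G] (W : Gens G) (i : F →* G) (c : T.End → W.Bd) : Prop :=
  ∀ (ξ : T.End) (f : ℕ → F), T.TendsTo f ξ → W.Conv (fun n => i (f n)) (c ξ)

end CvTree

end Pool.Agent.MP_f91e0f_al.H43
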