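import Pool.Agent.MP_f91e0f_al.H43.Conic

/-! Rays in the tree, and the covering estimate. -/

namespace Pool.Agent.MP_f91e0f_al.H43

open Filter MeasureTheory
open scoped ENNReal NNReal Topology

namespace CvTree

variable {F V : Type} [Group F] [MulAction F V] (T : CvTree F V)

lemma exists_path (ξ : T.End) (n : ℕ) : ∃ p : T.T.Walk T.x0 (ξ.1 n),
    p.support = (List.range (n + 1)).map ξ.1 := by
  induction n with
  | zero => exact ⟨SimpleGraph.Walk.nil.copy rfl ξ.2.1.symm, by simp [ξ.2.1]⟩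
  | succ n ih =>
    obtain ⟨p, hp⟩ := ih
    refine ⟨p.concat (ξ.2.2.1 n), ?_⟩
    rw [SimpleGraph.Walk.support_concat, hp, List.range_succ (n := n + 1)]
    simp

lemma isPath_of (ξ : T.End) {n : ℕ} {u v : V} {p : T.T.Walk u v}
    (hp : p.support = (List.range (n + 1)).map ξ.1) : p.IsPath := by
  rw [SimpleGraph.Walk.isPath_def, hp]
  exact List.nodup_range.map ξ.2.2.2

lemma dist_ray (ξ : T.End) (n : ℕ) : T.T.dist T.x0 (ξ.1 n) = n := by
  obtain ⟨p, hp⟩ := T.exists_path ξ n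
  obtain ⟨q, hq, hq'⟩ := T.tree.connected.exists_path_of_dist T.x0 (ξ.1 n)
  have h := (T.tree.isAcyclic.subsingleton_path _ _).elim ⟨p, T.isPath_of ξ hp⟩ ⟨q, hq⟩
  have h' : p = q := congrArg Subtype.val h
  rw [← hq', ← h']
  have := p.length_support
  rw [hp] at this
  simpa using this.symm

lemma ray_eq {ξ η : T.End} {n : ℕ} (h : ξ.1 n = η.1 n) {k : ℕ} (hk : k ≤ n) : ξ.1 k = η.1 k := by
  obtain ⟨p, hp⟩ := T.exists_path ξ n
  obtain ⟨q, hq⟩ := T.exists_path η n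
  have hq' : (q.copy rfl h.symm).support = (List.range (n + 1)).map η.1 := by simpa using hq
  have e := (T.tree.isAcyclic.subsingleton_path _ _).elim ⟨p, T.isPath_of ξ hp⟩
    ⟨q.copy rfl h.symm, T.isPath_of η hq'⟩
  have e' : p = q.copy rfl h.symm := congrArg Subtype.val e
  rw [← e', hp] at hq'
  exact List.map_inj_left.1 hq' k (List.mem_range.2 (by omega))

lemma dist_ray_le (ξ : T.End) (n d : ℕ) : T.T.dist (ξ.1 n) (ξ.1 (n + d)) ≤ d := by
  induction d with
  | zero => simp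
  | succ d ih =>
    have h1 := T.tree.connected.dist_triangle (u := ξ.1 n) (v := ξ.1 (n + d)) (w := ξ.1 (n + d + 1))
    have h2 := SimpleGraph.dist_eq_one_iff_adj.2 (ξ.2.2.1 (n + d))
    rw [← add_assoc]
    omega

lemma dist_smul_le (f : F) (u v : V) : T.T.dist (f • u) (f • v) ≤ T.T.dist u v := by
  obtain ⟨p, hp⟩ := T.tree.connected.exists_walk_length_eq_dist u v
  let φ : T.T →g T.T := ⟨fun v => f • v, fun {a b} h => T.adj_smul f a b h⟩
  have := SimpleGraph.dist_le (p.map φ)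
  rw [SimpleGraph.Walk.length_map, hp] at this
  exact this

lemma tendsTo_of (ξ : T.End) (f : ℕ → F) (D : ℕ)
    (h : ∀ n, T.T.dist (f n • T.x0) (ξ.1 n) ≤ D) : T.TendsTo f ξ := by
  unfold TendsTo
  rw [tendsto_atTop_atTop]
  intro r
  obtain ⟨N, hN⟩ := exists_nat_ge (r + D)
  refine ⟨(N, N), fun p hp => ?_⟩
  obtain ⟨n, m⟩ := p
  have hn : N ≤ n := hp.1
  have hm : N ≤ m := hp.2
  have h1 := T.tree.connected.dist_triangle (u := T.x0) (v := f n • T.x0) (w := ξ.1 n)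
  have h2 := T.tree.connected.dist_triangle (u := f n • T.x0) (v := ξ.1 n) (w := ξ.1 m)
  have h3 : T.T.dist (ξ.1 n) (ξ.1 m) + 2 * N ≤ n + m := by
    rcases le_total n m with h | h
    · obtain ⟨d, rfl⟩ := Nat.exists_eq_add_of_le h
      have := T.dist_ray_le ξ n d
      omega
    · obtain ⟨d, rfl⟩ := Nat.exists_eq_add_of_le h
      have := T.dist_ray_le ξ m d
      rw [SimpleGraph.dist_comm]
      omega
  have h4 := h n
  rw [T.dist_ray] at h1
  have h5 : 2 * N + T.T.dist (f n • T.x0) (ξ.1 m) ≤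
      T.T.dist T.x0 (f n • T.x0) + m + 2 * D := by omega
  have h6 : 2 * (N : ℝ) + T.T.dist (f n • T.x0) (ξ.1 m) ≤
      T.T.dist T.x0 (f n • T.x0) + m + 2 * D := by exact_mod_cast h5
  simp only [T.dist_ray]
  linarith

lemma exists_min_len : ∃ c : ℝ, 0 < c ∧ ∀ u v, T.T.Adj u v → c ≤ T.l u v := by
  classical
  obtain ⟨E, hE⟩ := T.cocompact
  have key : ∀ E : Finset (V × V), ∃ c : ℝ, 0 < c ∧ ∀ e ∈ E, T.T.Adj e.1 e.2 → c ≤ T.l e.1 e.2 := by
    intro E
    induction E using Finset.induction_on with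
    | empty => exact ⟨1, one_pos, by simp⟩
    | insert e E _ ih =>
      obtain ⟨c, hc, h⟩ := ih
      by_cases he : T.T.Adj e.1 e.2
      · refine ⟨min c (T.l e.1 e.2), lt_min hc (T.l_pos _ _ he), fun x hx hx' => ?_⟩
        rcases Finset.mem_insert.1 hx with rfl | hx
        exacts [min_le_right _ _, (min_le_left _ _).trans (h x hx hx')]
      · refine ⟨c, hc, fun x hx hx' => ?_⟩
        rcases Finset.mem_insert.1 hx with rfl | hx
        exacts [absurd hx' he, h x hx hx']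
  obtain ⟨c, hc, h⟩ := key E
  refine ⟨c, hc, fun u v huv => ?_⟩
  obtain ⟨f, hf⟩ := hE u v huv
  have := h _ hf (T.adj_smul f u v huv)
  rwa [T.l_smul] at this

lemma edist_le : ∃ κ : ℝ≥0∞, κ < 1 ∧
    ∀ (n : ℕ) (ξ η : T.End), ξ.1 n = η.1 n → edist ξ η ≤ κ ^ n := by
  obtain ⟨c, hc, h⟩ := T.exists_min_len
  have ha : 0 < T.a := zero_lt_one.trans T.one_lt
  refine ⟨ENNReal.ofReal (T.a ^ (-c)), ?_, fun n ξ η hn => ?_⟩
  · rw [ENNReal.ofReal_lt_one]
    exact Real.rpow_lt_one_of_one_lt_of_neg T.one_lt (by linarith)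
  · by_cases he : ξ = η
    · simp [he]
    rw [edist_dist, ← ENNReal.ofReal_pow (Real.rpow_pos_of_pos ha _).le]
    refine ENNReal.ofReal_le_ofReal ?_
    have hd : dist ξ η = T.a ^ (-T.cp ξ η) := if_neg he
    rw [hd, ← Real.rpow_natCast, ← Real.rpow_mul ha.le]
    refine Real.rpow_le_rpow_of_exponent_le T.one_lt.le ?_
    have h1 : n < PiNat.firstDiff (E := fun _ => V) ξ.1 η.1 := by
      by_contra hlt
      exact PiNat.apply_firstDiff_ne (E := fun _ => V) (x := ξ.1) (y := η.1)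
        (fun e => he (Subtype.ext e)) (T.ray_eq hn (not_lt.1 hlt))
    have h2 := T.sum_mono ξ (m := n) (n := PiNat.firstDiff (E := fun _ => V) ξ.1 η.1 - 1)
      (by omega)
    have h3 : ∑ _k ∈ Finset.range n, c ≤ ∑ k ∈ Finset.range n, T.l (ξ.1 k) (ξ.1 (k + 1)) :=
      Finset.sum_le_sum fun k _ => h _ _ (ξ.2.2.1 k)
    simp only [Finset.sum_const, Finset.card_range, nsmul_eq_mul] at h3
    unfold cp
    linarith

/-- The covering estimate. -/
lemma dimH_eq_zero (X : Set T.End) (A K : ℕ)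
    (hX : ∀ M : ℕ, 0 < M → ∃ I : ℕ → Finset V, (∀ n, (I n).card ≤ A * K ^ (n / M)) ∧
      ∀ ξ ∈ X, ∀ N, ∃ n ≥ N, ξ.1 n ∈ I n) : dimH X = 0 := by
  borelize T.End
  obtain ⟨κ, hκ, hd⟩ := T.edist_le
  have key : ∀ d : ℝ≥0, 0 < d → dimH X ≤ d := by
    intro d hd0
    have hd' : (0 : ℝ) < d / 2 := by positivity
    set τ : ℝ≥0∞ := κ ^ ((d : ℝ) / 2) with hτ
    have hτ1 : τ < 1 := ENNReal.rpow_lt_one hκ hd'
    obtain ⟨M, hM, hM0⟩ : ∃ M : ℕ, (K : ℝ≥0∞) * τ ^ M ≤ 1 ∧ 0 < M := by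
      have h1 := ENNReal.Tendsto.const_mul (a := (K : ℝ≥0∞))
        (ENNReal.tendsto_pow_atTop_nhds_zero_of_lt_one hτ1) (Or.inr (ENNReal.natCast_ne_top K))
      rw [mul_zero] at h1
      exact ((h1.eventually (ge_mem_nhds zero_lt_one)).and (eventually_gt_atTop 0)).exists
    obtain ⟨I, hI, hcov⟩ := hX M hM0
    refine dimH_le_of_hausdorffMeasure_ne_top (ne_top_of_le_ne_top ?_
      (Measure.hausdorffMeasure_le_liminf_tsum (ι := fun _ : ℕ => Σ n : ℕ, ↥(I n)) d X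
        (l := atTop) (fun N => κ ^ N) (ENNReal.tendsto_pow_atTop_nhds_zero_of_lt_one hκ)
        (fun N x => {ξ | N ≤ x.1 ∧ ξ.1 x.1 = x.2.1}) ?_ ?_))
    · have hb : ∀ N : ℕ, ∑' x : (Σ n : ℕ, ↥(I n)),
          Metric.ediam {ξ : T.End | N ≤ x.1 ∧ ξ.1 x.1 = x.2.1} ^ (d : ℝ) ≤ A * (1 - τ)⁻¹ := by
        intro N
        calc _ ≤ ∑' x : (Σ n : ℕ, ↥(I n)), τ ^ x.1 * τ ^ x.1 := by
              refine ENNReal.tsum_le_tsum fun x => ?_
              have h1 : Metric.ediam {ξ : T.End | N ≤ x.1 ∧ ξ.1 x.1 = x.2.1} ≤ κ ^ x.1 :=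
                Metric.ediam_le fun ξ hξ η hη => hd _ _ _ (hξ.2.trans hη.2.symm)
              refine (ENNReal.rpow_le_rpow h1 d.2).trans (le_of_eq ?_)
              rw [← mul_pow, hτ, ← ENNReal.rpow_add_of_nonneg _ _ hd'.le hd'.le, add_halves,
                ← ENNReal.rpow_natCast, ← ENNReal.rpow_natCast, ← ENNReal.rpow_mul,
                ← ENNReal.rpow_mul, mul_comm]
              rfl
          _ = ∑' n, ((I n).card : ℝ≥0∞) * (τ ^ n * τ ^ n) := by
              rw [ENNReal.tsum_sigma']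
              refine tsum_congr fun n => ?_
              rw [tsum_fintype]
              simp
          _ ≤ ∑' n, (A : ℝ≥0∞) * τ ^ n := by
              refine ENNReal.tsum_le_tsum fun n => ?_
              have h1 : ((I n).card : ℝ≥0∞) ≤ A * K ^ (n / M) := by exact_mod_cast hI n
              have h2 : τ ^ n ≤ (τ ^ M) ^ (n / M) := by
                rw [← pow_mul]
                exact pow_le_pow_right_of_le_one' hτ1.le (Nat.mul_div_le n M)
              calc ((I n).card : ℝ≥0∞) * (τ ^ n * τ ^ n)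
                  ≤ (A * K ^ (n / M)) * ((τ ^ M) ^ (n / M) * τ ^ n) := by gcongr
                _ = A * ((K * τ ^ M) ^ (n / M) * τ ^ n) := by rw [mul_pow]; ring
                _ ≤ A * (1 * τ ^ n) := by
                    gcongr
                    exact pow_le_one' hM _
                _ = A * τ ^ n := by rw [one_mul]
          _ = A * (1 - τ)⁻¹ := by rw [ENNReal.tsum_mul_left, ENNReal.tsum_geometric]
      refine ne_top_of_le_ne_top ?_ (liminf_le_of_frequently_le' (Frequently.of_forall hb))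
      exact ENNReal.mul_ne_top (ENNReal.natCast_ne_top A)
        (ENNReal.inv_ne_top.2 (tsub_pos_of_lt hτ1).ne')
    · refine Eventually.of_forall fun N x => Metric.ediam_le fun ξ hξ η hη => ?_
      exact (hd _ _ _ (hξ.2.trans hη.2.symm)).trans (pow_le_pow_right_of_le_one' hκ.le hξ.1)
    · refine Eventually.of_forall fun N ξ hξ => ?_
      obtain ⟨n, hn, h⟩ := hcov ξ hξ N
      exact Set.mem_iUnion.2 ⟨⟨n, ⟨_, h⟩⟩, hn, rfl⟩
  refine le_antisymm (ENNReal.le_of_forall_pos_le_add fun ε hε _ => ?_) bot_le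
  simpa using key ε hε

theorem main {G : Type} [Group G] (W : Gens G) (i : F →* G) (c : T.End → W.Bd)
    (hW : W.Hyp) (hi : Function.Injective i) (hc : T.IsCT W i c) :
    dimH (c ⁻¹' {z | ¬ W.Conical i z}) = 0 := by
  classical
  obtain ⟨δ, hδ⟩ := hW
  obtain ⟨E, hE⟩ := T.cocompact
  obtain ⟨K, hK⟩ := W.card_ball
  have h1 : ∀ (ξ : T.End) (n : ℕ), ∃ f : F, (f⁻¹ • ξ.1 n, f⁻¹ • ξ.1 (n + 1)) ∈ E := by
    intro ξ n
    obtain ⟨f, hf⟩ := hE _ _ (ξ.2.2.1 n)
    exact ⟨f⁻¹, by simpa using hf⟩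
  choose f hf using h1
  have hD : ∀ ξ n, T.T.dist (f ξ n • T.x0) (ξ.1 n) ≤ E.sup fun e => T.T.dist T.x0 e.1 := by
    intro ξ n
    have h2 := T.dist_smul_le (f ξ n) T.x0 ((f ξ n)⁻¹ • ξ.1 n)
    rw [smul_inv_smul] at h2
    exact h2.trans (Finset.le_sup (f := fun e : V × V => T.T.dist T.x0 e.1) (hf ξ n))
  have hfin : {g : F | ∃ e ∈ E, ∃ e' ∈ E, g • e'.1 = e.2}.Finite := by
    have : {g : F | ∃ e ∈ E, ∃ e' ∈ E, g • e'.1 = e.2} =
        ⋃ e ∈ E, ⋃ e' ∈ E, {g : F | g • e'.1 = e.2} := by ext; simp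
    rw [this]
    refine E.finite_toSet.biUnion fun e _ => E.finite_toSet.biUnion fun e' _ =>
      Set.Subsingleton.finite fun g hg g' hg' => ?_
    have h3 : (g'⁻¹ * g) • e'.1 = e'.1 := by
      rw [mul_smul, show g • e'.1 = e.2 from hg, ← show g' • e'.1 = e.2 from hg', inv_smul_smul]
    exact (inv_mul_eq_one.1 (T.free _ _ h3)).symm
  obtain ⟨L, hL⟩ := (hfin.image fun g => W.len (i g)).bddAbove
  have hLip : ∀ ξ n, W.len ((i (f ξ n))⁻¹ * i (f ξ (n + 1))) ≤ L := by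
    intro ξ n
    rw [← map_inv, ← map_mul]
    refine hL ⟨_, ⟨_, hf ξ n, _, hf ξ (n + 1), ?_⟩, rfl⟩
    simp [mul_smul]
  refine T.dimH_eq_zero _ E.card K fun M hM => ?_
  refine ⟨fun n => (E ×ˢ W.ball (n / M)).image fun x => Function.invFun i x.2 • x.1.1,
    fun n => ?_, fun ξ hξ N => ?_⟩
  · refine Finset.card_image_le.trans ?_
    rw [Finset.card_product]
    exact Nat.mul_le_mul_left _ (hK _)
  · by_contra hcon
    push Not at hcon
    have hlin : ∀ n ≥ N, n ≤ M * W.len (i (f ξ n)) := by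
      intro n hn
      by_contra hlt
      refine hcon n hn (Finset.mem_image.2 ⟨(_, i (f ξ n)),
        Finset.mem_product.2 ⟨hf ξ n, W.mem_ball ?_⟩, ?_⟩)
      · rw [Nat.le_div_iff_mul_le hM, mul_comm]
        exact (not_le.1 hlt).le
      · simp [Function.leftInverse_invFun hi (f ξ n)]
    obtain ⟨R, hR⟩ := Gens.radial_of_linear hδ (fun n => i (f ξ n)) L (hLip ξ) M N hM hlin
    exact hξ (Gens.conical_of_radial hδ i (f ξ) (hc ξ _ (T.tendsTo_of ξ _ _ (hD ξ))) R hR)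

end CvTree

end Pool.Agent.MP_f91e0f_al.H43
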